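import Pool.Agent.Helper40.JZ.Stmts
import Pool.Agent.Helper40.IZ.Stmts

/-! Row EVC: an operator which commutes with projections of bounded Hilbert-Schmidt norm has an
eigenvector. -/

open Finset Filter MeasureTheory Topology
open scoped ComplexConjugate InnerProductSpace

namespace Pool.Agent.Helper40.JZ

/-- bounded sequences have a limit along an ultrafilter -/
theorem evc_lim (𝓤 : Ultrafilter ℕ) (a : ℕ → ℂ) (C : ℝ) (ha : ∀ n, ‖a n‖ ≤ C) :
    ∃ z : ℂ, Tendsto a 𝓤 (𝓝 z) := by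
  obtain ⟨z, _, hz⟩ := (isCompact_closedBall (0 : ℂ) C).ultrafilter_le_nhds (𝓤.map a) (by
    rw [Filter.le_principal_iff]
    refine Filter.mem_map.2 (Filter.univ_mem' fun n => ?_)
    show a n ∈ Metric.closedBall (0 : ℂ) C
    rw [mem_closedBall_zero_iff]
    exact ha n)
  exact ⟨z, hz⟩

section

variable {H : Type} [NormedAddCommGroup H] [InnerProductSpace ℂ H] [CompleteSpace H]

/-- weak limit of a bounded sequence of operators -/
theorem evc_weak (𝓤 : Ultrafilter ℕ) (P : ℕ → H →L[ℂ] H) (hP : ∀ n, ‖P n‖ ≤ 1) :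
    ∃ Q : H →L[ℂ] H, ∀ x y, Tendsto (fun n => (inner ℂ (P n x) y : ℂ)) 𝓤 (𝓝 (inner ℂ (Q x) y)) := by
  have hb : ∀ x y : H, ∀ n, ‖(inner ℂ (P n x) y : ℂ)‖ ≤ 1 * ‖x‖ * ‖y‖ := by
    intro x y n
    refine (norm_inner_le_norm _ _).trans ?_
    refine mul_le_mul_of_nonneg_right ?_ (norm_nonneg _)
    exact (P n).le_of_opNorm_le (hP n) x
  have hl : ∀ x y : H, ∃ z : ℂ, Tendsto (fun n => (inner ℂ (P n x) y : ℂ)) 𝓤 (𝓝 z) :=
    fun x y => evc_lim 𝓤 _ _ (hb x y)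
  choose B hB using hl
  have hBb : ∀ x y, ‖B x y‖ ≤ 1 * ‖x‖ * ‖y‖ := fun x y =>
    le_of_tendsto (hB x y).norm (Eventually.of_forall (hb x y))
  let B1 : H →ₗ⋆[ℂ] H →ₗ[ℂ] ℂ := LinearMap.mk₂'ₛₗ (starRingEnd ℂ) (RingHom.id ℂ) B
    (fun x x' y => tendsto_nhds_unique (hB (x + x') y) (by
      simpa [inner_add_left] using (hB x y).add (hB x' y)))
    (fun c x y => tendsto_nhds_unique (hB (c • x) y) (by
      simpa [inner_smul_left, mul_comm] using (hB x y).const_mul (conj c)))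
    (fun x y y' => tendsto_nhds_unique (hB x (y + y')) (by
      simpa [inner_add_right] using (hB x y).add (hB x y')))
    (fun c x y => tendsto_nhds_unique (hB x (c • y)) (by
      simpa [inner_smul_right] using (hB x y).const_mul c))
  let B2 : H →L⋆[ℂ] H →L[ℂ] ℂ := LinearMap.mkContinuous₂ B1 1 hBb
  refine ⟨InnerProductSpace.continuousLinearMapOfBilin B2, fun x y => ?_⟩
  rw [InnerProductSpace.continuousLinearMapOfBilin_apply]
  exact hB x y

/-- an operator with bounded sums of squares on a Hilbert basis is compact -/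
theorem evc_compact {ι : Type} (e : HilbertBasis ι ℂ H) (Q : H →L[ℂ] H)
    (hQ : ∀ B : Finset ι, ∑ i ∈ B, ‖Q (e i)‖ ^ 2 ≤ 1) : IsCompactOperator Q := by
  classical
  have hs : Summable fun i => ‖Q (e i)‖ ^ 2 :=
    summable_of_sum_le (fun i => sq_nonneg _) hQ
  -- the truncations
  let F : Finset ι → H →L[ℂ] H := fun B =>
    ∑ i ∈ B, (ContinuousLinearMap.toSpanSingleton ℂ (Q (e i))).comp (innerSL ℂ (e i))
  have hF : ∀ B x, F B x = ∑ i ∈ B, (inner ℂ (e i) x : ℂ) • Q (e i) := by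
    intro B x
    simp [F]
  have hc : ∀ B, IsCompactOperator (F B) := by
    intro B
    have h1 : ∀ i, IsCompactOperator
        ((ContinuousLinearMap.toSpanSingleton ℂ (Q (e i))).comp (innerSL ℂ (e i)) : H →L[ℂ] H) := by
      intro i
      have h3 : IsCompactOperator (innerSL ℂ (e i) : H →L[ℂ] ℂ) :=
        (isCompactOperator_id (E := ℂ)).comp_clm (innerSL ℂ (e i) : H →L[ℂ] ℂ)
      exact h3.clm_comp (ContinuousLinearMap.toSpanSingleton ℂ (Q (e i)))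
    show IsCompactOperator (⇑(∑ i ∈ B,
      (ContinuousLinearMap.toSpanSingleton ℂ (Q (e i))).comp (innerSL ℂ (e i)) : H →L[ℂ] H))
    induction B using Finset.induction with
    | empty => simpa using isCompactOperator_zero
    | insert a s ha ih =>
      rw [Finset.sum_insert ha]
      exact (h1 a).add ih
  refine isCompactOperator_of_tendsto (l := atTop) (F := F) ?_ (Eventually.of_forall hc)
  rw [Metric.tendsto_atTop]
  intro ε hε
  -- the tail of the squares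
  have hε2 : 0 < (ε / 2) ^ 2 := by positivity
  obtain ⟨B₀, hB₀⟩ := (summable_iff_vanishing_norm.1 hs) ((ε / 2) ^ 2) hε2
  refine ⟨B₀, fun B hB => ?_⟩
  rw [dist_eq_norm]
  refine lt_of_le_of_lt ?_ (half_lt_self hε)
  refine ContinuousLinearMap.opNorm_le_bound _ (by positivity) fun x => ?_
  -- `Q x` is the sum over the basis
  have hx : HasSum (fun i => (inner ℂ (e i) x : ℂ) • Q (e i)) (Q x) := by
    have h1 := (e.hasSum_repr x).mapL Q
    simpa [HilbertBasis.repr_apply_apply] using h1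
  have hlim : Tendsto (fun C : Finset ι => ‖F B x - ∑ i ∈ C, (inner ℂ (e i) x : ℂ) • Q (e i)‖)
      atTop (𝓝 ‖F B x - Q x‖) := (tendsto_const_nhds.sub hx).norm
  rw [sub_apply]
  refine le_of_tendsto hlim ?_
  filter_upwards [eventually_ge_atTop B] with C hC
  have e1 : F B x - ∑ i ∈ C, (inner ℂ (e i) x : ℂ) • Q (e i) =
      -∑ i ∈ C \ B, (inner ℂ (e i) x : ℂ) • Q (e i) := by
    rw [hF, ← Finset.sum_sdiff hC]
    abel
  rw [e1, norm_neg]
  have e2 : ‖∑ i ∈ C \ B, (inner ℂ (e i) x : ℂ) • Q (e i)‖ ≤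
      ∑ i ∈ C \ B, ‖(inner ℂ (e i) x : ℂ)‖ * ‖Q (e i)‖ := by
    refine (norm_sum_le _ _).trans (le_of_eq ?_)
    exact Finset.sum_congr rfl fun i _ => norm_smul _ _
  have e3 : (∑ i ∈ C \ B, ‖(inner ℂ (e i) x : ℂ)‖ * ‖Q (e i)‖) ^ 2 ≤
      (∑ i ∈ C \ B, ‖(inner ℂ (e i) x : ℂ)‖ ^ 2) * ∑ i ∈ C \ B, ‖Q (e i)‖ ^ 2 :=
    Finset.sum_mul_sq_le_sq_mul_sq _ _ _
  have e4 : ∑ i ∈ C \ B, ‖(inner ℂ (e i) x : ℂ)‖ ^ 2 ≤ ‖x‖ ^ 2 :=
    e.orthonormal.sum_inner_products_le x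
  have e5 : ∑ i ∈ C \ B, ‖Q (e i)‖ ^ 2 ≤ (ε / 2) ^ 2 := by
    have h1 := hB₀ (C \ B) (by
      rw [Finset.disjoint_left]
      intro i hi hi'
      exact (Finset.mem_sdiff.1 hi).2 (hB hi'))
    rw [Real.norm_eq_abs, abs_of_nonneg (Finset.sum_nonneg fun i _ => sq_nonneg _)] at h1
    exact h1.le
  have e6 : (∑ i ∈ C \ B, ‖(inner ℂ (e i) x : ℂ)‖ * ‖Q (e i)‖) ^ 2 ≤ (ε / 2 * ‖x‖) ^ 2 := by
    refine e3.trans ?_
    calc _ ≤ ‖x‖ ^ 2 * (ε / 2) ^ 2 :=
          mul_le_mul e4 e5 (Finset.sum_nonneg fun i _ => sq_nonneg _) (sq_nonneg _)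
      _ = (ε / 2 * ‖x‖) ^ 2 := by ring
  exact e2.trans (abs_le_of_sq_le_sq' e6 (by positivity)).2

end

theorem st_EVC : Pool.Agent.Helper40.IZ.ST_SPC → ST_EVC := by
  intro hSPC H _ _ _ ι e W P g δ hδ hP hS hW hHS hg
  set 𝓤 : Ultrafilter ℕ := hyperfilter ℕ with h𝓤
  have hle : (𝓤 : Filter ℕ) ≤ atTop := Nat.hyperfilter_le_atTop
  obtain ⟨Q, hQ⟩ := evc_weak 𝓤 P hP
  -- symmetric
  have hQS : LinearMap.IsSymmetric (Q : H →ₗ[ℂ] H) := by
    intro x y
    have h1 := hQ x y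
    have h2 : Tendsto (fun n => (inner ℂ (P n x) y : ℂ)) 𝓤 (𝓝 (inner ℂ x (Q y))) := by
      have h3 := (Complex.continuous_conj.tendsto _).comp (hQ y x)
      have h4 : (fun n => (inner ℂ (P n x) y : ℂ)) = (fun z : ℂ => conj z) ∘
          fun n => (inner ℂ (P n y) x : ℂ) := by
        funext n
        simp only [Function.comp]
        rw [inner_conj_symm]
        exact hS n x y
      rw [h4, ← inner_conj_symm (𝕜 := ℂ) x (Q y)]
      exact h3
    exact tendsto_nhds_unique h1 h2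
  -- commutes
  have hQW : ∀ h, W (Q h) = Q (W h) := by
    intro x
    refine ext_inner_right ℂ fun y => ?_
    have h1 := hQ (W x) y
    have h2 : Tendsto (fun n => (inner ℂ (P n (W x)) y : ℂ)) 𝓤 (𝓝 (inner ℂ (W (Q x)) y)) := by
      have h3 := hQ x (ContinuousLinearMap.adjoint W y)
      simp only [ContinuousLinearMap.adjoint_inner_right] at h3
      simpa only [hW] using h3
    exact (tendsto_nhds_unique h1 h2).symm
  -- positive
  have hQg : δ ≤ RCLike.re (inner ℂ (Q g) g : ℂ) :=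
    ge_of_tendsto ((RCLike.continuous_re.tendsto _).comp (hQ g g)) (Eventually.of_forall hg)
  -- Hilbert-Schmidt
  have hQH : ∀ B : Finset ι, ∑ i ∈ B, ‖Q (e i)‖ ^ 2 ≤ 1 := by
    intro B
    have h1 : Tendsto (fun n => ∑ i ∈ B, RCLike.re (inner ℂ (P n (e i)) (Q (e i)) : ℂ)) 𝓤
        (𝓝 (∑ i ∈ B, ‖Q (e i)‖ ^ 2)) := by
      refine tendsto_finsetSum _ fun i _ => ?_
      have h2 := (RCLike.continuous_re.tendsto _).comp (hQ (e i) (Q (e i)))
      rw [inner_self_eq_norm_sq] at h2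
      exact h2
    have h2 : ∑ i ∈ B, ‖Q (e i)‖ ^ 2 ≤ (1 + ∑ i ∈ B, ‖Q (e i)‖ ^ 2) / 2 := by
      refine le_of_tendsto h1 ?_
      filter_upwards [hle (hHS B)] with n hn
      have h3 : ∀ i ∈ B, RCLike.re (inner ℂ (P n (e i)) (Q (e i)) : ℂ) ≤
          (‖P n (e i)‖ ^ 2 + ‖Q (e i)‖ ^ 2) / 2 := by
        intro i _
        have h4 := re_inner_le_norm (𝕜 := ℂ) (P n (e i)) (Q (e i))
        nlinarith [sq_nonneg (‖P n (e i)‖ - ‖Q (e i)‖)]
      refine (Finset.sum_le_sum h3).trans ?_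
      rw [← Finset.sum_div, Finset.sum_add_distrib]
      linarith
    linarith
  have hQc : IsCompactOperator Q := evc_compact e Q hQH
  -- the finite dimensional space
  obtain ⟨η, hη, hη1⟩ : ∃ η : ℝ, 0 < η ∧ ‖Q‖ * η * ‖g‖ < δ := by
    refine ⟨δ / (‖Q‖ * ‖g‖ + 1), by positivity, ?_⟩
    have h1 : 0 ≤ ‖Q‖ * ‖g‖ := by positivity
    rw [show ‖Q‖ * (δ / (‖Q‖ * ‖g‖ + 1)) * ‖g‖ = δ * (‖Q‖ * ‖g‖ / (‖Q‖ * ‖g‖ + 1)) by ring]
    have h2 : ‖Q‖ * ‖g‖ / (‖Q‖ * ‖g‖ + 1) < 1 := by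
      rw [div_lt_one (by positivity)]
      linarith
    nlinarith
  obtain ⟨V, hV, _, hVW, hVg⟩ := hSPC H Q hQc hQS {g} isCompact_singleton η hη
  obtain ⟨g', hg'V, h₀, hh₀, _, hh⟩ := hVg g rfl
  have hVne : V ≠ ⊥ := by
    intro hbot
    rw [hbot, Submodule.mem_bot] at hg'V
    rw [hg'V, sub_zero] at hh
    have e1 : Q g = Q (g - h₀) := by rw [map_sub, hh₀, sub_zero]
    have e2 : RCLike.re (inner ℂ (Q g) g : ℂ) ≤ ‖Q‖ * η * ‖g‖ := by
      refine (re_inner_le_norm _ _).trans ?_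
      refine mul_le_mul_of_nonneg_right ?_ (norm_nonneg _)
      rw [e1]
      exact (Q.le_opNorm _).trans (mul_le_mul_of_nonneg_left hh (norm_nonneg _))
    linarith
  -- an eigenvector
  have hinv : ∀ v ∈ V, (W : H →ₗ[ℂ] H) v ∈ V := fun v hv => hVW W hQW v hv
  have hnt : Nontrivial V := (Submodule.nontrivial_iff_ne_bot).2 hVne
  obtain ⟨c, hc⟩ := Module.End.exists_eigenvalue ((W : H →ₗ[ℂ] H).restrict hinv)
  obtain ⟨v, hv⟩ := hc.exists_hasEigenvector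
  refine ⟨v, c, ?_, ?_⟩
  · intro h0
    exact hv.2 (Subtype.ext h0)
  · have h1 := Module.End.mem_eigenspace_iff.1 hv.1
    have h2 := congrArg (fun z : V => (z : H)) h1
    simpa using h2

end Pool.Agent.Helper40.JZ
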